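import Pool.Agent.Helper61_LT.Stmts

/-!
# CNT: the product of the nonzero eigenvalues of an integral positive matrix is at least one
-/

set_option autoImplicit false

namespace Pool.Agent.LT.H66

open Matrix Polynomial

/-- One for zero, the number itself otherwise. -/
noncomputable def nz (x : ℝ) : ℝ := if x = 0 then 1 else x

theorem nz_pos {x : ℝ} (hx : 0 ≤ x) : 0 < nz x := by
  unfold nz
  split_ifs with h
  · exact one_pos
  · exact lt_of_le_of_ne hx (Ne.symm h)

theorem prod_nz_pos : ∀ R : Multiset ℝ, (∀ x ∈ R, 0 ≤ x) → 0 < (R.map nz).prod := by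
  intro R
  induction R using Multiset.induction_on with
  | empty =>
    intro _
    simp
  | cons a s ih =>
    intro h
    rw [Multiset.map_cons, Multiset.prod_cons]
    exact mul_pos (nz_pos (h a (Multiset.mem_cons_self _ _)))
      (ih fun x hx => h x (Multiset.mem_cons_of_mem hx))

theorem trail_prod : ∀ R : Multiset ℝ,
    |((R.map fun x => X - C x).prod).trailingCoeff| = |(R.map nz).prod| := by
  intro R
  induction R using Multiset.induction_on with
  | empty =>
    rw [Multiset.map_zero, Multiset.map_zero, Multiset.prod_zero, Multiset.prod_zero,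
      trailingCoeff_eq_coeff_zero (by simp)]
    simp
  | cons a s ih =>
    rw [Multiset.map_cons, Multiset.map_cons, Multiset.prod_cons, Multiset.prod_cons,
      trailingCoeff_mul, abs_mul, abs_mul, ih]
    congr 1
    unfold nz
    split_ifs with h
    · rw [h, C_0, sub_zero]
      rw [show (X : ℝ[X]).trailingCoeff = 1 by simp [trailingCoeff]]
    · rw [trailingCoeff_eq_coeff_zero (by simp [h])]
      simp

theorem sum_le_aux : ∀ R : Multiset ℝ, (∀ x ∈ R, 0 ≤ x) →
    ((R.filter fun x => 0 < x ∧ x < 1).map fun x => Real.log (1 / x)).sum ≤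
      R.sum - Real.log (R.map nz).prod := by
  intro R
  induction R using Multiset.induction_on with
  | empty =>
    intro _
    simp
  | cons a s ih =>
    intro h
    have ha : 0 ≤ a := h a (Multiset.mem_cons_self _ _)
    have hs : ∀ x ∈ s, 0 ≤ x := fun x hx => h x (Multiset.mem_cons_of_mem hx)
    have ih' := ih hs
    rw [Multiset.map_cons, Multiset.prod_cons, Multiset.sum_cons,
      Real.log_mul (nz_pos ha).ne' (prod_nz_pos s hs).ne']
    by_cases h1 : 0 < a ∧ a < 1
    · rw [Multiset.filter_cons_of_pos (p := fun x : ℝ => 0 < x ∧ x < 1) s h1, Multiset.map_cons, Multiset.sum_cons]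
      have e1 : Real.log (nz a) = Real.log a := by
        unfold nz
        rw [if_neg h1.1.ne']
      rw [e1, one_div, Real.log_inv]
      linarith
    · rw [Multiset.filter_cons_of_neg (p := fun x : ℝ => 0 < x ∧ x < 1) s h1]
      have e1 : Real.log (nz a) ≤ a := by
        by_cases h0 : a = 0
        · unfold nz
          rw [if_pos h0, Real.log_one]
          exact ha
        · unfold nz
          rw [if_neg h0]
          have := Real.log_le_sub_one_of_pos (lt_of_le_of_ne ha (Ne.symm h0))
          linarith
      linarith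

theorem one_le_trail (p : ℤ[X]) (hp : p ≠ 0) :
    1 ≤ |(p.map (Int.castRingHom ℝ)).trailingCoeff| := by
  have h0 : p.map (Int.castRingHom ℝ) ≠ 0 := by
    rw [Ne, Polynomial.map_eq_zero_iff (Int.castRingHom ℝ).injective_int]
    exact hp
  have h1 : (p.map (Int.castRingHom ℝ)).trailingCoeff ≠ 0 := mt trailingCoeff_eq_zero.mp h0
  unfold trailingCoeff at h1 ⊢
  rw [coeff_map] at h1 ⊢
  have h2 : p.coeff (p.map (Int.castRingHom ℝ)).natTrailingDegree ≠ 0 := by
    intro h
    rw [h, map_zero] at h1
    exact h1 rfl
  have h3 : (1 : ℤ) ≤ |p.coeff (p.map (Int.castRingHom ℝ)).natTrailingDegree| :=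
    Int.one_le_abs h2
  have h4 : ((1 : ℤ) : ℝ) ≤ ((|p.coeff (p.map (Int.castRingHom ℝ)).natTrailingDegree| : ℤ) : ℝ) :=
    Int.cast_le.mpr h3
  rw [Int.cast_one, Int.cast_abs] at h4
  exact h4

theorem cnt : CntStmt := by
  classical
  intro ι _ _ A hA
  have hH : (cst A).IsHermitian := hA.isHermitian
  set R := (cst A).charpoly.roots with hR
  have hroots : R = Finset.univ.val.map fun i => hH.eigenvalues i := by
    rw [hR, hH.roots_charpoly_eq_eigenvalues]
    rfl
  have hnn : ∀ x ∈ R, 0 ≤ x := by
    intro x hx
    rw [hroots, Multiset.mem_map] at hx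
    obtain ⟨i, -, rfl⟩ := hx
    exact hA.eigenvalues_nonneg i
  have hch : (cst A).charpoly = A.charpoly.map (Int.castRingHom ℝ) := by
    rw [← Matrix.charpoly_map]
    rfl
  have hsp : (cst A).charpoly = (R.map fun x => X - C x).prod :=
    (hH.splits_charpoly.eq_prod_roots_of_monic (Matrix.charpoly_monic _))
  have h1 : 1 ≤ (R.map nz).prod := by
    have h2 := one_le_trail A.charpoly (Matrix.charpoly_monic A).ne_zero
    rw [← hch, hsp, trail_prod, abs_of_pos (prod_nz_pos R hnn)] at h2
    exact h2
  have h3 := sum_le_aux R hnn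
  have h4 : R.sum = (cst A).trace := by
    rw [Matrix.trace_eq_sum_roots_charpoly_of_splits hH.splits_charpoly]
  have h5 : 0 ≤ Real.log (R.map nz).prod := Real.log_nonneg h1
  rw [h4] at h3
  linarith

end Pool.Agent.LT.H66
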